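import Pool.Agent.R81.TC.Fam

/-!
# Turán's bound for 3-graphs with a partition into three classes and missing kinds of edges

Let `H` be a `K_4^3`-free 3-graph on `n` vertices whose vertex set is divided into three classes, each
with at least `n / 7` vertices. The kind of an edge is the multiset of the classes of its vertices;
there are ten kinds: `{0, 1, 2}`, the six kinds `{i, i, j}` and the three kinds `{i, i, i}`. We prove
that `H` has at most `5/54 n^3` edges, as conjectured for all `K_4^3`-free 3-graphs, if it has no
edges of the kinds in one of the following families, where `i, j, k` are the three classes in any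
order:

* `{i, j, k}` (no edge meets all three classes);
* `{i, i, j}` and `{i, i, k}`;
* `{i, i, j}` and `{k, k, j}`;
* `{i, i, j}`, `{j, j, k}` and `{k, k, i}` (the two-class kinds missing in Turán's construction);
* `{i, i, j}`, `{j, j, k}` and `{k, k, k}`;
* `{i, i, j}`, `{j, j, i}` and `{k, k, k}`.

Nothing is assumed on the edges of the other kinds, and for the fourth family `n / 25` instead of
`n / 7` is enough. In general `54 |H|` is at most `5 n^3` plus 134 times the number of edges of the
kinds in the family. So a 3-graph with `(5/54 + ε) n^3` edges and without `K_4^3` contains at least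
`54/134 ε n^3` edges of each of these families, for every such partition.

The proof consists of flag algebra computations of order five for 3-graphs with vertices of two or
three colours, with multipliers for the sizes of the colour classes, checked by the kernel. For the
fourth and the fifth family Turán's construction satisfies the assumptions, so the bound is sharp.
-/

set_option autoImplicit false
open Finset

namespace Pool.Agent.Results.MP_466853_co.MissingFamilies

open Pool.Agent.R81.TC

variable {n : ℕ}

/-- The 3-graph `H` has no four vertices spanning all four triples. -/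
def K43Free (H : Finset (Finset (Fin n))) : Prop :=
  ∀ S : Finset (Fin n), S.card = 4 → ∃ T ⊆ S, T.card = 3 ∧ T ∉ H

/-- The six families of kinds. -/
def families (i j k : Fin 3) : List (List (Multiset (Fin 3))) :=
  [[{i, j, k}],
   [{i, i, j}, {i, i, k}],
   [{i, i, j}, {k, k, j}],
   [{i, i, j}, {j, j, k}, {k, k, i}],
   [{i, i, j}, {j, j, k}, {k, k, k}],
   [{i, i, j}, {j, j, i}, {k, k, k}]]

theorem map_three (σ : Equiv.Perm (Fin 3)) (a b d : Fin 3) :
    Multiset.map σ ({a, b, d} : Multiset (Fin 3)) = {σ a, σ b, σ d} := by
  simp [Multiset.insert_eq_cons]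

section

variable {H : Finset (Finset (Fin n))} (h3 : ∀ e ∈ H, e.card = 3) (hK : K43Free H)
include h3 hK

theorem rel {i j k : Fin 3} (hij : i ≠ j) (hik : i ≠ k) (hjk : j ≠ k) (c : Fin n → Fin 3)
    (hs : ∀ l, n ≤ 7 * classSize c l) (F : List (Multiset (Fin 3))) (hF : F ∈ families i j k) :
    54 * H.card ≤ 5 * n ^ 3 + 134 * (edgesIn H c F).card := by
  obtain ⟨σ, s1, s2, s3⟩ := perm_exists i j k hij hik hjk
  have hs' := classSize_perm' hs σ
  simp only [families, List.mem_cons, List.not_mem_nil, or_false] at hF
  rcases hF with rfl | rfl | rfl | rfl | rfl | rfl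
  · have h := can1 h3 hK _ hs'
    have e := edgesIn_perm H c σ [{i, j, k}]
    simp only [List.map_cons, List.map_nil, map_three, s1, s2, s3] at e
    rwa [e] at h
  · have h := can2 h3 hK _ hs'
    have e := edgesIn_perm H c σ [{i, i, j}, {i, i, k}]
    simp only [List.map_cons, List.map_nil, map_three, s1, s2, s3] at e
    rwa [e] at h
  · have h := can3 h3 hK _ hs'
    have e := edgesIn_perm H c σ [{i, i, j}, {k, k, j}]
    simp only [List.map_cons, List.map_nil, map_three, s1, s2, s3] at e
    rwa [e] at h
  · obtain ⟨τ, t1, t2, t3⟩ := perm_exists i k j hik hij hjk.symm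
    have ht' := classSize_perm' hs τ
    have h := can4 h3 hK _ (fun l => (ht' l).trans (Nat.mul_le_mul_right _ (by norm_num)))
    have e := edgesIn_perm H c τ [{i, i, j}, {j, j, k}, {k, k, i}]
    simp only [List.map_cons, List.map_nil, map_three, t1, t2, t3] at e
    rwa [e] at h
  · obtain ⟨τ, t1, t2, t3⟩ := perm_exists j i k hij.symm hjk hik
    have ht' := classSize_perm' hs τ
    have h := can5 h3 hK _ ht'
    have e := edgesIn_perm H c τ [{i, i, j}, {j, j, k}, {k, k, k}]
    simp only [List.map_cons, List.map_nil, map_three, t1, t2, t3] at e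
    rwa [e] at h
  · have h := can6 h3 hK _ hs'
    have e := edgesIn_perm H c σ [{i, i, j}, {j, j, i}, {k, k, k}]
    simp only [List.map_cons, List.map_nil, map_three, s1, s2, s3] at e
    rwa [e] at h

theorem rel4 {i j k : Fin 3} (hij : i ≠ j) (hik : i ≠ k) (hjk : j ≠ k) (c : Fin n → Fin 3)
    (hs : ∀ l, n ≤ 25 * classSize c l) :
    54 * H.card ≤ 5 * n ^ 3 +
      134 * (edgesIn H c [{i, i, j}, {j, j, k}, {k, k, i}]).card := by
  obtain ⟨τ, t1, t2, t3⟩ := perm_exists i k j hik hij hjk.symm
  have ht' := classSize_perm' hs τ
  have h := can4 h3 hK _ ht'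
  have e := edgesIn_perm H c τ [{i, i, j}, {j, j, k}, {k, k, i}]
  simp only [List.map_cons, List.map_nil, map_three, t1, t2, t3] at e
  rwa [e] at h

end

/-- Let `H` be a `K_4^3`-free 3-graph on `n` vertices, divided into three classes with at least
`n / 7` vertices each, let `i, j, k` be the three classes in any order and `F` one of the six
families. Then `54 |H| ≤ 5 n^3 + 134 X`, where `X` is the number of edges whose multiset of classes
is in `F`. In particular `|H| ≤ 5/54 n^3` if there are no such edges. For the fourth family it is
enough that each class has at least `n / 25` vertices. -/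
theorem result (n : ℕ) (H : Finset (Finset (Fin n))) (h3 : ∀ e ∈ H, e.card = 3) (hK : K43Free H)
    (c : Fin n → Fin 3) (i j k : Fin 3) (hij : i ≠ j) (hik : i ≠ k) (hjk : j ≠ k) :
    ((∀ l, n ≤ 7 * classSize c l) → ∀ F ∈ families i j k,
      54 * H.card ≤ 5 * n ^ 3 + 134 * (edgesIn H c F).card ∧
      (edgesIn H c F = ∅ → 54 * H.card ≤ 5 * n ^ 3)) ∧
    ((∀ l, n ≤ 25 * classSize c l) →
      54 * H.card ≤ 5 * n ^ 3 +
        134 * (edgesIn H c [{i, i, j}, {j, j, k}, {k, k, i}]).card) := by
  refine ⟨fun hs F hF => ?_, fun hs => rel4 h3 hK hij hik hjk c hs⟩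
  have h := rel h3 hK hij hik hjk c hs F hF
  refine ⟨h, fun h0 => ?_⟩
  rw [h0, card_empty] at h
  omega

end Pool.Agent.Results.MP_466853_co.MissingFamilies
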