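import Pool.Agent.R105.TP.U33
import Pool.Agent.Y903.TX.Low
import Pool.Agent.TH773.ST.Ful

/-!
# The Turán number of the pair `{K_4^3, F_{3,3}}`

`F_{3,3}` is the 3-graph with vertices `a_1, a_2, a_3, b_1, b_2, b_3` whose ten edges are `b_1 b_2 b_3`
and the nine triples `a_i a_j b_k`. By itself it has Turán density `3/4`, the extremal 3-graph being
the complete bipartite one (Keevash–Mubayi), and Turán conjectured `ex(n, K_4^3) = t(n)`, where `t(n)`
is the number of edges of Turán's construction with three almost equal parts. For the pair the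
density is `5/9` (Baber–Talbot, flag algebras). Here the exact number is determined for large `n`:
`ex(n, {K_4^3, F_{3,3}}) = t(n)`, and Turán's construction is the only extremal 3-graph.

Outline. By stability and deletion of vertices of small degree the 3-graph `H` may be assumed to be
close to Turán's construction with parts `V_0, V_1, V_2`, with large minimum degree. Let `L` be the
link of a vertex, a graph on `V_0 ∪ V_1 ∪ V_2`. It has almost no triangles of the types of edges of
Turán's construction, and if it has many edges inside `V_{i+1}`, then it has few triangles inside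
`V_i` and few triangles with two vertices in `V_i` and one in `V_{i-1}`, since otherwise there is a
copy of `F_{3,3}` with the vertex as one of the `b_k`. If there are many edges inside all three parts,
`L` is almost triangle-free and has too few edges (Goodman). If there are many edges inside exactly
two parts, `V_1` and `V_2`, say, then with `g_i`, `b_i` the densities inside `V_i` and between `V_i`
and `V_{i+1}` we get `b_0 + b_1 + b_2 ≤ 2 - (1 - b_2) g_1`, `g_1 ≤ 1/2`, `g_2 ≤ 1 - b_2^2` up to small
errors, which contradicts the number of edges of `L`. So there are few edges inside two of the parts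
and `L` is close to a link in Turán's construction. The pairs inside a part have small codegree
inside the part, again since there is no `F_{3,3}`. The local analysis near Turán's construction
gives the bound and shows that an extremal 3-graph is given by an orientation of the pairs between
different parts; a reversed pair produces a copy of `F_{3,3}`.
-/

set_option autoImplicit false
set_option maxRecDepth 100000
set_option maxHeartbeats 4000000
open Finset
open scoped Classical

namespace Pool.Agent.Results.MP_466853_co.TetrahedronAndF33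
open Pool.Agent.TH773.Turan34

/-- `H` contains the 3-graph `F`: there is an injection of the vertices of `F` which maps the edges
of `F` to edges of `H` (other triples may be mapped to edges as well). -/
def Contains {k n : ℕ} (F : Finset (Finset (Fin k))) (H : Finset (Finset (Fin n))) : Prop :=
  ∃ f : Fin k → Fin n, Function.Injective f ∧ ∀ e ∈ F, e.image f ∈ H

/-- `F_{3,3}`: the triple `345` and the nine triples with two elements of `{0, 1, 2}` and one element
of `{3, 4, 5}`. -/
def F33 : Finset (Finset (Fin 6)) :=
  {{3, 4, 5}, {0, 1, 3}, {0, 2, 3}, {1, 2, 3}, {0, 1, 4}, {0, 2, 4}, {1, 2, 4}, {0, 1, 5},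
    {0, 2, 5}, {1, 2, 5}}

/-- The 3-graphs on `n` vertices which contain neither `K_4^3` nor `F_{3,3}`. -/
def Free (n : ℕ) (H : Finset (Finset (Fin n))) : Prop :=
  (∀ e ∈ H, e.card = 3) ∧ K43Free H ∧ ¬ Contains F33 H

/-- The number of edges of Turán's construction with three parts of almost equal sizes
`n/3`, `(n+1)/3`, `(n+2)/3` (rounded down). -/
def t (n : ℕ) : ℕ :=
  n / 3 * ((n + 1) / 3) * ((n + 2) / 3) + (n / 3).choose 2 * ((n + 1) / 3) +
    ((n + 1) / 3).choose 2 * ((n + 2) / 3) + ((n + 2) / 3).choose 2 * (n / 3)

theorem F33_eq : F33 = R105.TP.gr R105.TP.E33 := by decide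

theorem no_col : ∀ g : Fin 6 → Fin 3, ∃ e ∈ R105.TP.E33,
    R105.TP.tb (g e.1) (g e.2.1) (g e.2.2) = false := by
  decide +kernel

/-- membership in Turán's construction, by the types of the parts -/
theorem mem_turan {n : ℕ} (g : Fin n → Fin 3) {x y z : Fin n} (h1 : x ≠ y) (h2 : x ≠ z)
    (h3 : y ≠ z) : ({x, y, z} : Finset (Fin n)) ∈ turan g ↔
      R105.TP.tb (g x) (g y) (g z) = true := by
  rw [R105.TP.turan_tgraph]
  have h := Pool.Agent.Y439.Loc.rel_tgraph g x y z
  unfold Pool.Agent.Y439.Loc.Rel Pool.Agent.Y439.Loc.Tu Pool.Agent.Y439.Loc.FD at h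
  constructor
  · intro hm
    exact (h.1 ⟨h1, h3, h2, hm⟩).2.2.2
  · intro hm
    exact (h.2 ⟨h1, h3, h2, hm⟩).2.2.2

/-- Turán's construction does not contain `F_{3,3}` -/
theorem turan_free33 {n : ℕ} (g : Fin n → Fin 3) : ¬ Contains F33 (turan g) := by
  rintro ⟨f, hf, hi⟩
  obtain ⟨e, he, hb⟩ := no_col fun i => g (f i)
  obtain ⟨n1, n2, n3⟩ := R105.TP.prp33 e he
  have h1 : ({e.1, e.2.1, e.2.2} : Finset (Fin 6)) ∈ F33 := by
    rw [F33_eq]
    exact R105.TP.mem_gr.2 ⟨e, he, rfl⟩
  have h2 := hi _ h1
  rw [R105.TP.img3, mem_turan g (fun h => n1 (hf h)) (fun h => n2 (hf h)) (fun h => n3 (hf h))]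
    at h2
  rw [hb] at h2
  exact absurd h2 (by decide)

theorem turan_Free {n : ℕ} (g : Fin n → Fin 3) : Free n (turan g) := by
  refine ⟨fun e he => ?_, Pool.Agent.TH773.ST.turan_free g, turan_free33 g⟩
  unfold turan at he
  exact (mem_powersetCard.1 (mem_filter.1 he).1).2

theorem turan_t (n : ℕ) : ∃ g : Fin n → Fin 3, (turan g).card = t n := by
  obtain ⟨g, hg⟩ := Pool.Agent.Y903.TX.tgraph_card n
  exact ⟨g, by rw [R105.TP.turan_tgraph, hg]; rfl⟩

theorem hom33 : ∀ X ∈ fam 2, R105.TP.HomTo (R105.TP.gr R105.TP.E33) X := by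
  intro X hX
  simp only [fam, List.mem_cons, List.not_mem_nil, or_false] at hX
  rcases hX with rfl | rfl
  · exact ⟨![1, 2, 3, 0, 4, 5], by decide⟩
  · exact ⟨![0, 1, 5, 2, 3, 4], by decide⟩

/-- For all sufficiently large `n`: the largest number of edges of a 3-graph on `n` vertices which
contains neither `K_4^3` nor `F_{3,3}` is `t n`, and every such 3-graph with `t n` edges is Turán's
construction `turan g` for some division `g` of the vertices into three parts. Moreover no
`turan g` contains `K_4^3` or `F_{3,3}`, for any `n` and `g`. -/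
theorem result :
    (∃ n0 : ℕ, ∀ n, n0 ≤ n →
      IsGreatest {m : ℕ | ∃ H : Finset (Finset (Fin n)), Free n H ∧ H.card = m} (t n) ∧
      ∀ H : Finset (Finset (Fin n)), Free n H → H.card = t n →
        ∃ g : Fin n → Fin 3, H = turan g) ∧
    ∀ (n : ℕ) (g : Fin n → Fin 3), Free n (turan g) := by
  refine ⟨?_, fun n g => turan_Free g⟩
  obtain ⟨n0, h⟩ := R105.TP.exact_33 2 hom33
  have key : ∀ n, n0 ≤ n → ∀ H : Finset (Finset (Fin n)), Free n H →
      H.card ≤ t n ∧ (H.card = t n → ∃ g : Fin n → Fin 3, H = turan g) := by
    intro n hn H hH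
    have hC : ¬ R105.TP.Contains (R105.TP.gr R105.TP.E33) H := by
      rw [← F33_eq]; exact hH.2.2
    obtain ⟨h1, h2⟩ := h n hn H hH.1 hH.2.1 hC
    refine ⟨h1, fun he => ?_⟩
    obtain ⟨g, hg⟩ := h2 he
    exact ⟨g, by rw [hg, R105.TP.turan_tgraph]⟩
  refine ⟨n0, fun n hn => ⟨⟨?_, ?_⟩, fun H hH he => (key n hn H hH).2 he⟩⟩
  · obtain ⟨g, hg⟩ := turan_t n
    exact ⟨turan g, turan_Free g, hg⟩
  · rintro m ⟨H, hH, rfl⟩
    exact (key n hn H hH).1

end Pool.Agent.Results.MP_466853_co.TetrahedronAndF33
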