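import Pool.Agent.R810.TC.Tight
import Pool.Agent.R810.TT.Many

/-!
# Coverings with several tight components, and colourings of the pairs

Two triples of a 3-graph `T` are in the same tight component if there is a sequence of triples of
`T` from one to the other in which consecutive triples have two common vertices. In Turán's
construction the triples with two or three vertices in `V_i` form a tight component, so that there
are three of them. Conversely, it is proved here that a 3-graph in which all four vertices span a
triple has at most three tight components, and that it contains Turán's construction if it has three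
of them. So the exact form of Turán's conjecture holds for these 3-graphs, for all numbers of
vertices, with Turán's construction as the only extremal one.

The tight components colour the pairs of vertices so that all triples of `T` are monochromatic.
The 3-graphs which are given by colourings of the pairs with any number of colours, namely as
the set of all monochromatic triples, also satisfy the exact form of Turán's conjecture: if all four
vertices span a monochromatic triangle, then the number of monochromatic triangles is at least that
in Turán's construction.

The bound `4/9` holds for all 3-graphs `T` in which all four vertices span a triple, and for which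
there is a colouring of the pairs (with any number of colours) such that almost all triples of `T`
are monochromatic and either at least three colours have a positive proportion of the triples, or no
colour has more than 9/10 of the pairs. In particular, Turán's bound holds for all `T` in which
no tight component covers more than 9/10 of the pairs, also after the removal of few triples:
a counterexample to Turán's conjecture must be tightly connected in a robust sense.

Proof of the last part: it suffices to consider two colours, and (by random samples of constant
size) colourings for which all triples of `T` are monochromatic. Then the graph of the first colour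
is a threshold graph, so that the vertices can be ordered such that the colour of a pair depends on
its last vertex only. Let `F` be the last block of vertices of the same type. The triples of `T` which
are not contained in `F` are determined up to the links of the other vertices in `F`, and these
links are bounded below by Goodman's theorem in terms of the number of triples in `F`. This gives a
cubic inequality with equality for Turán's construction.
-/

set_option autoImplicit false
open Finset

namespace Pool.Agent.Results.MP_466853_co.TightComponents

variable {n : ℕ}

/-- Every four vertices contain a triple of `T`. -/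
def Covers (T : Finset (Finset (Fin n))) : Prop :=
  ∀ S : Finset (Fin n), S.card = 4 → ∃ e ∈ T, e ⊆ S

/-- There is a sequence of triples of `T` from `e` to `f` in which consecutive triples have exactly
two common vertices. -/
def Linked (T : Finset (Finset (Fin n))) (e f : Finset (Fin n)) : Prop :=
  Relation.ReflTransGen (fun a b => a ∈ T ∧ b ∈ T ∧ (a ∩ b).card = 2) e f

/-- The set of the tight components of `T`, where a tight component is a set of triples. -/
def tightComponents (T : Finset (Finset (Fin n))) : Set (Set (Finset (Fin n))) :=
  {C | ∃ e ∈ T, C = {f | Linked T e f}}

/-- Turán's construction for the classes of `g`: the triples inside a class, and the triples with two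
vertices in a class and one vertex in the (cyclically) next class. -/
def turanCovering (g : Fin n → Fin 3) : Finset (Finset (Fin n)) :=
  univ.filter fun e => e.card = 3 ∧ ((∃ k, ∀ x ∈ e, g x = k) ∨
    ∃ k, (e.filter fun x => g x = k).card = 2 ∧ (e.filter fun x => g x = k + 1).card = 1)

/-- The number of triples of Turán's construction on `n` vertices with classes of `⌊n/3⌋`,
`⌊(n+1)/3⌋`, `⌊(n+2)/3⌋` vertices. -/
def turanNumber (n : ℕ) : ℕ :=
  (n / 3).choose 3 + ((n + 1) / 3).choose 3 + ((n + 2) / 3).choose 3 +
    (n / 3).choose 2 * ((n + 2) / 3) + ((n + 1) / 3).choose 2 * (n / 3) +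
    ((n + 2) / 3).choose 2 * ((n + 1) / 3)

/-- All pairs of vertices in `e` have the colour `s`. -/
def MonoIn {κ : Type} (c : Fin n → Fin n → κ) (s : κ) (e : Finset (Fin n)) : Prop :=
  ∀ x ∈ e, ∀ y ∈ e, x ≠ y → c x y = s

open Classical in
/-- The monochromatic triples of the colouring `c`. -/
noncomputable def monoTriples (c : Fin n → Fin n → ℕ) : Finset (Finset (Fin n)) :=
  univ.filter fun e => e.card = 3 ∧ ∃ s, MonoIn c s e

open Pool.Agent.R810 in
theorem turanCovering_eq (g : Fin n → Fin 3) : turanCovering g = TC.turanCovering g := by
  unfold turanCovering TC.turanCovering
  congr!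

open Pool.Agent.R810 in
theorem monoTriples_eq (c : Fin n → Fin n → ℕ) : monoTriples c = TC.monoTriples c := by
  unfold monoTriples TC.monoTriples
  congr!

open Pool.Agent.R810 in
/-- **Turán's conjecture for coverings with several tight components, and for monochromatic
triples.** Let `T` be a set of triples of `n` vertices such that every four vertices contain a triple
of `T`. Then `T` has at most three tight components. If it has three, then it contains Turán's
construction for some classes with at least two vertices, so that it has at least as many triples as
the balanced construction, with equality only if `T` is Turán's construction; this is sharp for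
all `n ≥ 6`.

The least number of monochromatic triples of a colouring of the pairs of `n` vertices such that
every four vertices contain a monochromatic triple is the number of triples of Turán's
construction, for every `n` and for any number of colours.

For all `δ, η > 0` there are `ε > 0` and `n0` such that for `n ≥ n0` a set of triples `T` such that
every four vertices contain a triple of `T` has at least `(4/9 - η) C(n,3)` triples, if there is a
colouring of the pairs with any number of colours, such that at most `ε n³` triples of `T` are not
monochromatic, and at least three colours have at least `δ n³` triples of `T` or no colour has more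
than 9/10 of the pairs. -/
theorem result :
    (∀ (n : ℕ) (T : Finset (Finset (Fin n))), (∀ e ∈ T, e.card = 3) → Covers T →
      (tightComponents T).ncard ≤ 3 ∧
      ((tightComponents T).ncard = 3 → turanNumber n ≤ T.card ∧ ∃ g : Fin n → Fin 3,
        (∀ i, 2 ≤ (univ.filter fun x => g x = i).card) ∧ turanCovering g ⊆ T ∧
        (T.card = turanNumber n → T = turanCovering g))) ∧
    (∀ n : ℕ, 6 ≤ n → IsLeast {m : ℕ | ∃ T : Finset (Finset (Fin n)),
      (∀ e ∈ T, e.card = 3) ∧ Covers T ∧ (tightComponents T).ncard = 3 ∧ T.card = m}
      (turanNumber n)) ∧
    (∀ n : ℕ, IsLeast {m : ℕ | ∃ c : Fin n → Fin n → ℕ, (∀ x y, c x y = c y x) ∧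
      Covers (monoTriples c) ∧ (monoTriples c).card = m} (turanNumber n)) ∧
    (∀ δ η : ℝ, 0 < δ → 0 < η → ∃ ε : ℝ, 0 < ε ∧ ∃ n0 : ℕ, ∀ n, n0 ≤ n →
      ∀ T : Finset (Finset (Fin n)), (∀ e ∈ T, e.card = 3) → Covers T →
      ∀ (κ : Type) (c : Fin n → Fin n → κ), (∀ x y, c x y = c y x) →
        ({e | e ∈ T ∧ ∀ s, ¬ MonoIn c s e}.ncard : ℝ) ≤ ε * (n : ℝ) ^ 3 →
        ((∃ k : Fin 3 → κ, Function.Injective k ∧
            ∀ i, δ * (n : ℝ) ^ 3 ≤ ({e | e ∈ T ∧ MonoIn c (k i) e}.ncard : ℝ)) ∨
          ∀ s : κ, ({p : Fin n × Fin n | p.1 ≠ p.2 ∧ c p.1 p.2 = s}.ncard : ℝ) ≤
            9 / 10 * ((n : ℝ) * (n - 1))) →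
        (4 / 9 - η) * (n.choose 3 : ℝ) ≤ (T.card : ℝ)) := by
  refine ⟨?_, ?_, ?_, ?_⟩
  · intro n T h3 hT
    refine ⟨TC.tight_le h3 hT, fun h => ?_⟩
    obtain ⟨p, hp, hne⟩ := TC.three_of (T := T) (le_of_eq h.symm)
    obtain ⟨⟨g, hg, hgT⟩, h5, -⟩ := TC.tight_main h3 hT hp hne
    refine ⟨h5, g, ?_, ?_, fun h6 => ?_⟩
    · intro i
      convert hg i
    · rw [turanCovering_eq]
      exact hgT
    · rw [turanCovering_eq]
      refine (eq_of_subset_of_card_le hgT ?_).symm
      rw [h6]
      exact TC.fn_le_cov g
  · intro n hn
    constructor
    · obtain ⟨g, hg, hc⟩ := TC.exists_cov hn
      refine ⟨turanCovering g, ?_, ?_, ?_, ?_⟩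
      · rw [turanCovering_eq]
        exact fun e he => TC.cov_three he
      · rw [turanCovering_eq]
        exact TC.cov_covers g
      · rw [turanCovering_eq]
        exact TC.tight_cov hg
      · rw [turanCovering_eq]
        exact hc
    · rintro m ⟨T, h3, hT, h, rfl⟩
      obtain ⟨p, hp, hne⟩ := TC.three_of (T := T) (le_of_eq h.symm)
      exact (TC.tight_main h3 hT hp hne).2.1
  · intro n
    constructor
    · obtain ⟨c, hs, hc, hm⟩ := TC.colouring_sharp n
      have hmono : TC.monoTriples (fun x y => ((c x y : Fin 3) : ℕ)) = TC.monoTriples c := by
        ext e
        rw [TC.mem_monoT, TC.mem_monoT]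
        constructor
        · rintro ⟨h3, k, hk⟩
          refine ⟨h3, ?_⟩
          obtain ⟨x, y, z, d1, -, -, he⟩ := card_eq_three.1 h3
          have hx : x ∈ e := by rw [he]; simp
          have hy : y ∈ e := by rw [he]; simp
          refine ⟨c x y, fun a ha b hb hab => ?_⟩
          apply Fin.ext
          exact (hk a ha b hb hab).trans (hk x hx y hy d1).symm
        · rintro ⟨h3, k, hk⟩
          exact ⟨h3, k, fun a ha b hb hab => congrArg (fun t : Fin 3 => (t : ℕ)) (hk a ha b hb hab)⟩
      refine ⟨fun x y => ((c x y : Fin 3) : ℕ),
        fun x y => congrArg (fun t : Fin 3 => (t : ℕ)) (hs x y), ?_, ?_⟩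
      · rw [monoTriples_eq, hmono]
        exact hc
      · rw [monoTriples_eq, hmono]
        exact hm
    · rintro m ⟨c, hs, hc, rfl⟩
      rw [monoTriples_eq] at hc ⊢
      exact TC.colouring_lower hs hc
  · intro δ η hδ hη
    obtain ⟨ε1, hε1, n1, h1⟩ := TC.asymptotic_many hδ hη
    obtain ⟨ε2, hε2, n2, h2⟩ := TT.robust_many hη
    refine ⟨min ε1 ε2, lt_min hε1 hε2, max n1 n2, fun n hn T h3 hT κ c hs hb hk => ?_⟩
    have hn3 : (0 : ℝ) ≤ (n : ℝ) ^ 3 := by positivity
    rcases hk with hk | hk
    · exact h1 n ((le_max_left _ _).trans hn) T h3 hT κ c hs
        (hb.trans (mul_le_mul_of_nonneg_right (min_le_left _ _) hn3)) hk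
    · exact h2 n ((le_max_right _ _).trans hn) T h3 hT κ c hs
        (hb.trans (mul_le_mul_of_nonneg_right (min_le_right _ _) hn3)) hk

end Pool.Agent.Results.MP_466853_co.TightComponents
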