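import Pool.Agent.R23.TT.Outer
import Pool.Agent.R23.TTF.ORD
import Pool.Agent.R23.TTF.GOOD
import Pool.Agent.R23.TTF.BLUE
import Pool.Agent.R23.TTF.SEQ
import Pool.Agent.R23.TTF.FIN2
import Pool.Agent.R23.TTF.FIN5
import Pool.Agent.R23.TTF.X2
import Pool.Agent.R23.TTF.RUNTRI
import Pool.Agent.R23.TTF.PATH
import Pool.Agent.R23.TTF.F1
import Pool.Agent.R23.TTF.FIN34
import Pool.Agent.R23.TTF.FIN1
import Pool.Agent.R23.TTF.CNT
import Pool.Agent.R23.TTF.X3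
import Pool.Agent.R23.TTF.TAIL
import Pool.Agent.R23.TTF.SPLITm

set_option autoImplicit false

/-! Turan (3,4): a 3-graph `T` in which every 4 vertices span an edge, and whose edges are
monochromatic for a red-blue colouring `c` of the pairs of vertices in which each colour is used on
at least a quarter of the pairs, has at least `(4/9 - o(1)) C(n,3)` edges. -/

namespace Pool.Agent.Results.MP_466853_co.TwoColouredCoverings

open Finset Pool.Agent.R23.TT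

theorem result : ∀ (n : ℕ) (T : Finset (Finset (Fin n))) (c : Fin n → Fin n → Bool),
    (∀ t ∈ T, t.card = 3) →
    (∀ Q : Finset (Fin n), Q.card = 4 → ∃ t ∈ T, t ⊆ Q) →
    (∀ x y, c x y = c y x) →
    (∀ t ∈ T, ∀ x ∈ t, ∀ y ∈ t, ∀ z ∈ t, ∀ w ∈ t, x ≠ y → z ≠ w → c x y = c z w) →
    (∀ b : Bool, (1 / 4 : ℝ) * ((n : ℝ) * ((n : ℝ) - 1)) ≤
      (((univ : Finset (Fin n × Fin n)).filter
        (fun p => p.1 ≠ p.2 ∧ c p.1 p.2 = b)).card : ℝ)) →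
    2 / 27 * (n : ℝ) ^ 3 - 100 * (n : ℝ) ^ 2 ≤ (T.card : ℝ) := by
  intro n T c h1 h2 h3 h4 h5
  exact outer ORDf.t_ORD RUNTRIf.t_TRI F1f.t_F1 X2f.t_X2
    (X3f.t_X3 (TAILf.t_TAIL GOODf.t_GOOD) SPLITm.t_SPLIT)
    CNTf.t_CNT (SEQf.t_SEQ PATHf.t_PATH) BLUEf.t_BLUE RUNTRIf.t_RUN
    FIN1h.t_FIN1 FIN2f.t_FIN2 FIN34h.t_FIN3 FIN34h.t_FIN4 FIN5f.t_FIN5 FIN34h.t_FIN6
    n T c h1 h2 h3 h4 h5

end Pool.Agent.Results.MP_466853_co.TwoColouredCoverings
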